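import Pool.Agent.Helper47.RFn.GoalsE

/-!
# Project RFn, packet ATO: restriction to the frame `1`
-/

set_option autoImplicit false

namespace Pool.Agent.Helper47.RFn

open Finset

namespace AtoAux

variable {n : ℕ} {T : ℝ} {M : Mod n T}

theorem one_mem : (one : Ix n → Ix n → ℝ) ∈ OO n := by
  intro a b
  simp [one]

theorem at1_spec (hM : M.Ax) (f : M.B) :
    JS T (M.at1 f) ∧ ∀ z (t : TI T), M.fr z = one → M.ev z t f = M.at1 f t (M.pt z) := by
  have h := hM.res one one_mem f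
  unfold Mod.at1
  rw [dif_pos h]
  exact Classical.choose_spec h

theorem em_spec (hM : M.Ax) {v : ℝ → EE n → ℝ} (hv : JS T v) :
    M.XT (M.em v) ∧ ∀ z (t : TI T), M.ev z t (M.em v) = v t (M.pt z) := by
  have h := hM.emb v hv
  unfold Mod.em
  rw [dif_pos h]
  exact Classical.choose_spec h

theorem ex_z (hM : M.Ax) {x : EE n} (hx : x ≠ 0) : ∃ z, M.pt z = ‖x‖⁻¹ • x ∧ M.fr z = one :=
  hM.surj _ _ (by rw [norm_smul, norm_inv, norm_norm, inv_mul_cancel₀ (norm_ne_zero_iff.mpr hx)])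
    one_mem

theorem hom_pt {f : EE n → ℝ} (hf : Hom0 f) {x : EE n} (hx : x ≠ 0) : f (‖x‖⁻¹ • x) = f x :=
  hf _ _ (inv_pos.mpr (norm_pos_iff.mpr hx))

theorem js_sm {v : ℝ → EE n → ℝ} (h : JS T v) {t : ℝ} (h0 : 0 < t) (h1 : t < T) : Sm (v t) := by
  refine ⟨?_, h.hom t h0 h1⟩
  have h2 : ContDiff ℝ oo (fun x : EE n => (x, t)) := contDiff_id.prodMk contDiff_const
  exact h.cd.comp h2.contDiffOn (fun x hx => ⟨hx, h0, h1⟩)

theorem at1_eq (hM : M.Ax) (f : M.B) {x : EE n} (hx : x ≠ 0) {z : M.Z} (hz : M.pt z = ‖x‖⁻¹ • x)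
    (hz1 : M.fr z = one) {t : ℝ} (h0 : 0 < t) (h1 : t < T) :
    M.at1 f t x = M.ev z ⟨t, h0, h1⟩ f := by
  rw [(at1_spec hM f).2 z ⟨t, h0, h1⟩ hz1, hz]
  exact (hom_pt ((at1_spec hM f).1.hom t h0 h1) hx).symm

theorem at1_em (hM : M.Ax) {v : ℝ → EE n → ℝ} (hv : JS T v) {t : ℝ} (h0 : 0 < t) (h1 : t < T)
    {x : EE n} (hx : x ≠ 0) : M.at1 (M.em v) t x = v t x := by
  obtain ⟨z, hz, hz1⟩ := ex_z hM hx
  rw [at1_eq hM _ hx hz hz1 h0 h1, (em_spec hM hv).2, hz]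
  exact hom_pt (hv.hom t h0 h1) hx

theorem dsum_apply {B : Type} [CommRing B] [Algebra ℝ B] {ι : Type} (s : Finset ι)
    (D : ι → Derivation ℝ B B) (f : B) : (∑ i ∈ s, D i) f = ∑ i ∈ s, D i f := by
  have h : ∀ D' : Derivation ℝ B B, D' f = Derivation.coeFnAddMonoidHom D' f := fun _ => rfl
  rw [h, map_sum, Finset.sum_apply]
  rfl

theorem e_apply (i : Ix n) (f : M.B) : M.e i f = ∑ j, M.n0 j * M.L j i f := by
  unfold BA.e
  rw [dsum_apply]
  rfl

theorem at1_e (hC1 : Goal_C1) (hC3 : Goal_C3) (hM : M.Ax) (f : M.B) (i : Ix n) {t : ℝ} (h0 : 0 < t)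
    (h1 : t < T) {x : EE n} (hx : x ≠ 0) : M.at1 (M.e i f) t x = ed i (M.at1 f t) x := by
  obtain ⟨z, hz, hz1⟩ := ex_z hM hx
  obtain ⟨hjs, hev⟩ := at1_spec hM f
  have hs : Sm (M.at1 f t) := js_sm hjs h0 h1
  have hn : M.pt z ≠ 0 := by
    intro h
    have := hM.ptn z
    rw [h] at this
    simp at this
  rw [at1_eq hM _ hx hz hz1 h0 h1, e_apply, map_sum]
  have h2 : ∀ j, M.ev z ⟨t, h0, h1⟩ (M.n0 j * M.L j i f) = nn j (M.pt z) * Lr j i (M.at1 f t) (M.pt z) := by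
    intro j
    rw [map_mul, hM.nev, hM.resL one one_mem f (M.at1 f) hjs hev j i z ⟨t, h0, h1⟩ hz1]
  rw [Finset.sum_congr rfl fun j _ => h2 j, ← (hC3 n).2.2.2.2.1 i (M.at1 f t) (M.pt z) hs hn, hz]
  exact hom_pt ((hC1 n).2.2.2.2.2.2.2.2.1 (M.at1 f t) i hs).hom hx

theorem at1_D (hM : M.Ax) (f : M.B) {t : ℝ} (h0 : 0 < t) (h1 : t < T) {x : EE n} (hx : x ≠ 0) :
    HasDerivAt (fun r => M.at1 f r x) (M.at1 (M.Dt f) t x) t := by
  obtain ⟨z, hz, hz1⟩ := ex_z hM hx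
  rw [at1_eq hM _ hx hz hz1 h0 h1]
  refine (hM.ax.time f z ⟨t, h0, h1⟩).congr_of_eventuallyEq ?_
  filter_upwards [Ioo_mem_nhds h0 h1] with r hr
  rw [at1_eq hM _ hx hz hz1 hr.1 hr.2]
  unfold BA.val
  rw [dif_pos hr]

theorem ev_UV (hM : M.Ax) (f : M.B) (c d : Ix n) {z : M.Z} (hz1 : M.fr z = one) (t : TI T) :
    M.ev z t (M.U c d f) = M.ev z t (M.V c d f) := by
  rw [hM.ax.UeV]
  simp only [map_sum, map_mul, hM.uev, hz1, one]
  simp

/-- horizontal derivative as an element of `M.B` -/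
noncomputable def Hb (M : Mod n T) (A θ : ℝ → MF n) (a : Ix n) (f : M.B) : M.B := (M.flB A θ).H a f

/-- connection coefficients as elements of `M.B` -/
noncomputable def Gm (M : Mod n T) (A θ : ℝ → MF n) (b c d : Ix n) : M.B :=
  FR.Gam M.e M.n0 (M.emM A) (M.emM θ) b c d

/-- `S` as an element of `M.B` -/
noncomputable def Ss (M : Mod n T) (A θ : ℝ → MF n) (a b : Ix n) : M.B := (M.flB A θ).S a b

/-- `Y` as an element of `M.B` -/
noncomputable def Yy (M : Mod n T) (A θ : ℝ → MF n) (b c d : Ix n) : M.B := (M.flB A θ).Y b c d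

theorem H_apply (A θ : ℝ → MF n) (a : Ix n) (f : M.B) :
    Hb M A θ a f = ∑ b, M.u a b * (∑ i, M.emM A b i * M.e i f +
      (1 / 2 : ℝ) • ∑ c, ∑ d, Gm M A θ b c d * M.U c d f) := by
  change (∑ b, M.u a b • (∑ i, M.emM A b i • M.e i
    + (1 / 2 : ℝ) • ∑ c, ∑ d, Gm M A θ b c d • M.U c d)) f = _
  rw [dsum_apply]
  refine Finset.sum_congr rfl fun b _ => ?_
  rw [Derivation.smul_apply, Derivation.add_apply, dsum_apply, Derivation.smul_apply, dsum_apply]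
  simp only [dsum_apply, smul_eq_mul]
  rfl

/-- `H_a` at the frame `1` -/
theorem ev_H (hM : M.Ax) (A θ : ℝ → MF n) (a : Ix n) (f : M.B) {z : M.Z} (hz1 : M.fr z = one) (t : TI T) :
    M.ev z t (Hb M A θ a f) = ∑ i, M.ev z t (M.emM A a i) * M.ev z t (M.e i f) +
      1 / 2 * ∑ c, ∑ d, M.ev z t (Gm M A θ a c d) * M.ev z t (M.U c d f) := by
  rw [H_apply]
  simp only [map_sum, map_mul, map_add, map_smul, hM.uev, hz1, one, smul_eq_mul]
  simp

theorem C_anti (A θ : ℝ → MF n) (a b c : Ix n) :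
    FR.C M.e M.n0 (M.emM A) (M.emM θ) a b c = - FR.C M.e M.n0 (M.emM A) (M.emM θ) b a c := by
  unfold FR.C
  rw [neg_add, ← Finset.sum_neg_distrib]
  congr 1
  · refine Finset.sum_congr rfl fun j _ => ?_
    ring
  · ring

theorem G_anti (A θ : ℝ → MF n) (a b c : Ix n) : Gm M A θ a b c = - Gm M A θ a c b := by
  unfold Gm FR.Gam
  rw [← smul_neg]
  congr 1
  rw [C_anti A θ a b c, C_anti A θ a c b, C_anti A θ b c a]
  ring

theorem Y_anti (A θ : ℝ → MF n) (a b c : Ix n) : Yy M A θ a b c = - Yy M A θ a c b := by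
  show (M.flB A θ).Y a b c = - (M.flB A θ).Y a c b
  unfold FB.Y
  ring

/-- `H_a u_pc` -/
theorem H_u (hM : M.Ax) (A θ : ℝ → MF n) (a p c : Ix n) :
    Hb M A θ a (M.u p c) = ∑ b, ∑ d, M.u a b * (Gm M A θ b c d * M.u p d) := by
  rw [H_apply]
  refine Finset.sum_congr rfl fun b _ => ?_
  have h1 : ∀ i, M.e i (M.u p c) = 0 := by
    intro i
    rw [e_apply]
    simp [hM.ax.Lu]
  have h2 : ∑ k, ∑ d, Gm M A θ b k d * M.U k d (M.u p c) = (2 : ℝ) • ∑ d, Gm M A θ b c d * M.u p d := by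
    have h3 : ∀ k d, Gm M A θ b k d * M.U k d (M.u p c) =
        M.dl k c * (Gm M A θ b k d * M.u p d) + M.dl d c * (Gm M A θ b d k * M.u p k) := by
      intro k d
      rw [hM.ax.Uu, G_anti A θ b d k]
      ring
    have h4 : ∑ k, ∑ d, M.dl k c * (Gm M A θ b k d * M.u p d) = ∑ d, Gm M A θ b c d * M.u p d := by
      simp [BA.dl]
    have h5 : ∑ k, ∑ d, M.dl d c * (Gm M A θ b d k * M.u p k) = ∑ d, Gm M A θ b c d * M.u p d := by
      simp [BA.dl]
    simp only [h3, Finset.sum_add_distrib]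
    rw [h4, h5, two_smul]
  rw [h2, smul_smul]
  simp only [h1, mul_zero, Finset.sum_const_zero, zero_add]
  norm_num
  rw [Finset.mul_sum]

/-- evolution of the connection at the frame `1` -/
theorem ev_DG (hM : M.Ax) (A θ : ℝ → MF n) (hF : (M.flB A θ).Full) (a c p : Ix n) {z : M.Z}
    (hz1 : M.fr z = one) (t : TI T) :
    M.ev z t (M.Dt (Gm M A θ a c p)) =
      ∑ b, M.ev z t (FR.Rc M.e M.n0 (M.emM A) (M.emM θ) a b) * M.ev z t (Gm M A θ b c p) +
        M.ev z t (Yy M A θ a c p) := by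
  have h1 : M.Dt (Hb M A θ a (M.u p c)) = Hb M A θ a (M.Dt (M.u p c)) +
      ∑ b, Ss M A θ a b * Hb M A θ b (M.u p c) +
      (1 / 2 : ℝ) • ∑ k, ∑ d, Yy M A θ a k d * M.V k d (M.u p c) := hF.DHY a (M.u p c)
  have h2 : Hb M A θ a (M.Dt (M.u p c)) = 0 := by
    rw [hM.ax.Du]
    exact map_zero ((M.flB A θ).H a)
  have h3 : M.ev z t (M.Dt (Hb M A θ a (M.u p c))) = M.ev z t (M.Dt (Gm M A θ a c p)) := by
    rw [H_u hM]
    simp only [map_sum, Derivation.leibniz, smul_eq_mul, map_add, map_mul, hM.ax.Du, map_zero,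
      hM.uev, hz1, one]
    simp
  have h4 : ∀ b, M.ev z t (Hb M A θ b (M.u p c)) = M.ev z t (Gm M A θ b c p) := by
    intro b
    rw [H_u hM]
    simp only [map_sum, map_mul, hM.uev, hz1, one]
    simp
  have h5 : ∀ b, M.ev z t (Ss M A θ a b) =
      M.ev z t (FR.Rc M.e M.n0 (M.emM A) (M.emM θ) a b) := by
    intro b
    change M.ev z t (∑ c, ∑ d, M.u a c * M.u b d * FR.Rc M.e M.n0 (M.emM A) (M.emM θ) c d) = _
    simp only [map_sum, map_mul, hM.uev, hz1, one]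
    simp
  have h6 : M.ev z t ((1 / 2 : ℝ) • ∑ k, ∑ d, Yy M A θ a k d * M.V k d (M.u p c)) =
      M.ev z t (Yy M A θ a c p) := by
    have h7 : ∀ k d, Yy M A θ a k d * M.V k d (M.u p c) =
        M.dl d p * (Yy M A θ a k d * M.u k c) + M.dl k p * (Yy M A θ a d k * M.u d c) := by
      intro k d
      rw [hM.ax.Vu, Y_anti A θ a d k]
      ring
    simp only [h7, map_smul, map_sum, map_add, map_mul, hM.uev, hz1, one, BA.dl, smul_eq_mul,
      Finset.sum_add_distrib]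
    have h8 : ∀ a b : Ix n, M.ev z t (if a = b then (1 : M.B) else 0) = if a = b then 1 else 0 := by
      intro a b
      split_ifs <;> simp
    simp only [h8]
    simp
    ring
  rw [← h3, h1, h2, map_add, map_add, h6, map_zero, zero_add, map_sum]
  congr 1
  refine Finset.sum_congr rfl fun b _ => ?_
  rw [map_mul, h4, h5]

end AtoAux

open AtoAux in
theorem goal_ATO (hEM : Goal_EM) (hLNK : Goal_LNK) (hFLB : Goal_FLB) (hC1 : Goal_C1) (hC3 : Goal_C3) :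
    Goal_ATO := by
  intro n T hT M hM
  refine ⟨fun f => ⟨(at1_spec hM f).1, (at1_spec hM f).2, ?_, ?_, ?_⟩, ?_, ?_, ?_, ?_, ?_⟩
  · intro i t x h0 h1 hx
    exact at1_e hC1 hC3 hM f i h0 h1 hx
  · intro t x h0 h1 hx
    exact at1_D hM f h0 h1 hx
  · intro c d t x h0 h1 hx
    obtain ⟨z, hz, hz1⟩ := ex_z hM hx
    rw [at1_eq hM _ hx hz hz1 h0 h1, at1_eq hM _ hx hz hz1 h0 h1, ev_UV hM f c d hz1]
  · intro f g t x h0 h1 hx
    obtain ⟨z, hz, hz1⟩ := ex_z hM hx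
    constructor
    · rw [at1_eq hM _ hx hz hz1 h0 h1, at1_eq hM f hx hz hz1 h0 h1, at1_eq hM g hx hz hz1 h0 h1,
        map_mul]
    · rw [at1_eq hM _ hx hz hz1 h0 h1, at1_eq hM f hx hz hz1 h0 h1, at1_eq hM g hx hz hz1 h0 h1,
        map_add]
  · intro c f t x h0 h1 hx
    obtain ⟨z, hz, hz1⟩ := ex_z hM hx
    rw [at1_eq hM _ hx hz hz1 h0 h1, at1_eq hM f hx hz hz1 h0 h1, map_smul, smul_eq_mul]
  · intro v hv t x h0 h1 hx
    exact at1_em hM hv h0 h1 hx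
  · intro f K hK t x h0 h1 hx
    obtain ⟨z, hz, hz1⟩ := ex_z hM hx
    rw [at1_eq hM f hx hz hz1 h0 h1]
    exact hK _ _
  · intro I A θ hI hFF hA hθ
    obtain ⟨-, -, hLG, hLR, hLRc, -⟩ := hLNK n T hT M hM A θ hA hθ
    obtain ⟨-, hFull, -, -, hevR, -, -⟩ := hFLB n T hT M hM I A θ hI hFF hA hθ
    have hR : ∀ a b c d t x (h0 : 0 < t) (h1 : t < T), x ≠ 0 → ∀ z, M.pt z = ‖x‖⁻¹ • x → M.fr z = one →
        M.ev z ⟨t, h0, h1⟩ ((M.flB A θ).R a b c d : M.B) = Rf (A t) (θ t) a b c d x := by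
      intro a b c d t x h0 h1 hx z hz hz1
      have h2 : M.ev z ⟨t, h0, h1⟩ ((M.flB A θ).R a b c d : M.B) = _ := hevR z ⟨t, h0, h1⟩ a b c d
      rw [h2]
      simp only [hz1, one, hz]
      simp
      exact hom_pt ((hLR a b c d).1.hom t h0 h1) hx
    have hG : ∀ b c d t x, 0 < t → t < T → x ≠ 0 → M.at1 (Gm M A θ b c d) t x =
        Gamc (A t) (θ t) b c d x := by
      intro b c d t x h0 h1 hx
      unfold Gm
      rw [(hLG b c d).2, at1_em hM (hLG b c d).1 h0 h1 hx]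
    refine ⟨?_, ?_, ?_, ?_⟩
    · intro a b c d t x h0 h1 hx
      obtain ⟨z, hz, hz1⟩ := ex_z hM hx
      rw [at1_eq hM _ hx hz hz1 h0 h1]
      exact hR a b c d t x h0 h1 hx z hz hz1
    · intro a b t x h0 h1 hx
      obtain ⟨z, hz, hz1⟩ := ex_z hM hx
      rw [at1_eq hM _ hx hz hz1 h0 h1]
      unfold Rcf
      change M.ev z ⟨t, h0, h1⟩ (∑ c, ((M.flB A θ).R a c b c : M.B)) = _
      rw [map_sum]
      exact Finset.sum_congr rfl fun c _ => hR a c b c t x h0 h1 hx z hz hz1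
    · intro f i t x h0 h1 hx
      obtain ⟨z, hz, hz1⟩ := ex_z hM hx
      have h2 : ∀ b, M.at1 ((M.flB A θ).H b f) t x - 1 / 2 * ∑ c, ∑ d, Gamc (A t) (θ t) b c d x *
          M.at1 (M.V c d f) t x = ∑ j, A t x b j * ed j (M.at1 f t) x := by
        intro b
        have h3 := ev_H hM A θ b f hz1 ⟨t, h0, h1⟩
        have h4 : M.at1 ((M.flB A θ).H b f) t x = M.ev z ⟨t, h0, h1⟩ (Hb M A θ b f) :=
          at1_eq hM _ hx hz hz1 h0 h1
        rw [h4, h3]
        have h5 : ∀ j, M.ev z ⟨t, h0, h1⟩ (M.emM A b j) * M.ev z ⟨t, h0, h1⟩ (M.e j f) =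
            A t x b j * ed j (M.at1 f t) x := by
          intro j
          rw [← at1_eq hM _ hx hz hz1 h0 h1, ← at1_eq hM _ hx hz hz1 h0 h1, at1_e hC1 hC3 hM f j h0 h1 hx]
          congr 1
          exact at1_em hM (hA b j) h0 h1 hx
        have h6 : ∀ c d, M.ev z ⟨t, h0, h1⟩ (Gm M A θ b c d) * M.ev z ⟨t, h0, h1⟩ (M.U c d f) =
            Gamc (A t) (θ t) b c d x * M.at1 (M.V c d f) t x := by
          intro c d
          rw [ev_UV hM f c d hz1, ← at1_eq hM _ hx hz hz1 h0 h1, ← at1_eq hM _ hx hz hz1 h0 h1,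
            hG b c d t x h0 h1 hx]
        simp only [h5, h6]
        ring
      simp only [h2]
      have h3 : θ t x * A t x = 1 := by
        rw [mul_eq_one_comm]
        exact hFF.inv t (hI ⟨h0, h1⟩) x
      have h4 : ∀ j, ∑ b, θ t x i b * A t x b j = if i = j then 1 else 0 := by
        intro j
        have h5 := congrFun (congrFun h3 i) j
        rw [Matrix.mul_apply, Matrix.one_apply] at h5
        exact h5
      simp only [Finset.mul_sum]
      rw [Finset.sum_comm]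
      simp only [← mul_assoc, ← Finset.sum_mul, h4]
      simp
    · intro b c d t x h0 h1 hx
      obtain ⟨z, hz, hz1⟩ := ex_z hM hx
      have h2 := at1_D hM (Gm M A θ b c d) h0 h1 hx
      have h3 : M.at1 (M.Dt (Gm M A θ b c d)) t x =
          ∑ f, Rcf (A t) (θ t) b f x * Gamc (A t) (θ t) f c d x + M.at1 ((M.flB A θ).Y b c d) t x := by
        rw [at1_eq hM _ hx hz hz1 h0 h1, ev_DG hM A θ hFull b c d hz1 ⟨t, h0, h1⟩]
        congr 1
        · refine Finset.sum_congr rfl fun f _ => ?_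
          rw [← at1_eq hM _ hx hz hz1 h0 h1, ← at1_eq hM _ hx hz hz1 h0 h1, hG f c d t x h0 h1 hx]
          congr 1
          rw [(hLRc b f).2, at1_em hM (hLRc b f).1 h0 h1 hx]
        · exact (at1_eq hM _ hx hz hz1 h0 h1).symm
      rw [h3] at h2
      refine h2.congr_of_eventuallyEq ?_
      filter_upwards [Ioo_mem_nhds h0 h1] with r hr
      exact (hG b c d r x hr.1 hr.2 hx).symm

end Pool.Agent.Helper47.RFn
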