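import Pool.Agent.Helper73.RFn.JSn
import Mathlib.Analysis.Calculus.FDeriv.Partial

/-!
Project RFn, packet JSM: smooth families with all time derivatives are jointly smooth
(after `Pool.Agent.Helper93.RF.JSM`, the case `n = 3`).
-/

set_option autoImplicit false

open Finset Pool.Agent.Helper47.RFn Pool.Agent.Helper73.RFn

namespace Pool.Agent.Helper74.RFn.JSM

/-- the covectors dual to the frame -/
noncomputable def Ac {n : ℕ} (i : Fin (n + 1)) (x : EE n) : EE n →L[ℝ] ℝ :=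
  ‖x‖⁻¹ • (EuclideanSpace.proj i : EE n →L[ℝ] ℝ)

theorem dec {n : ℕ} (v : EE n) : v = ∑ i, v i • (EuclideanSpace.single i (1:ℝ) : EE n) := by
  ext j
  simp [Pi.single_apply]

theorem fderiv_eq {n : ℕ} {f : EE n → ℝ} {x : EE n} (hx : x ≠ 0) :
    fderiv ℝ f x = ∑ i, ed i f x • Ac i x := by
  have hn : ‖x‖ ≠ 0 := norm_ne_zero_iff.mpr hx
  ext v
  conv_lhs => rw [dec v]
  rw [map_sum, _root_.sum_apply]
  refine Finset.sum_congr rfl fun i _ => ?_
  rw [map_smul]
  have h1 : (EuclideanSpace.proj i : EE n →L[ℝ] ℝ) v = v i := rfl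
  simp only [ed, pd, Ac, _root_.smul_apply, smul_eq_mul, h1]
  field_simp

theorem Ac_cd {n : ℕ} (i : Fin (n + 1)) : ContDiffOn ℝ oo (Ac i : EE n → EE n →L[ℝ] ℝ) {0}ᶜ := by
  have h1 : ContDiffOn ℝ oo (fun x : EE n => ‖x‖⁻¹) {0}ᶜ := by
    intro x hx
    have hx' : x ≠ 0 := hx
    exact ((contDiffAt_norm ℝ hx').inv (norm_ne_zero_iff.mpr hx')).contDiffWithinAt
  exact h1.smul contDiffOn_const

/-- the open set -/
def OO (n : ℕ) (T : ℝ) : Set (EE n × ℝ) := {p | p.1 ≠ 0 ∧ 0 < p.2 ∧ p.2 < T}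

theorem isOpen_OO (n : ℕ) (T : ℝ) : IsOpen (OO n T) := by
  have h1 : IsOpen {p : EE n × ℝ | p.1 ≠ 0} := isOpen_ne_fun continuous_fst continuous_const
  have h2 : IsOpen {p : EE n × ℝ | 0 < p.2} := isOpen_lt continuous_const continuous_snd
  have h3 : IsOpen {p : EE n × ℝ | p.2 < T} := isOpen_lt continuous_snd continuous_const
  have : OO n T = {p : EE n × ℝ | p.1 ≠ 0} ∩ ({p : EE n × ℝ | 0 < p.2} ∩ {p : EE n × ℝ | p.2 < T}) := by
    ext p
    simp [OO]
  rw [this]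
  exact h1.inter (h2.inter h3)

section
variable {n : ℕ} {T : ℝ} {I : Set ℝ} {F : ℕ → ℝ → EE n → ℝ}

theorem G_cont (hI : Set.Ioo 0 T ⊆ I) (hF : ∀ k, SmFam1 I (F k) (F (k + 1))) (k : ℕ)
    (w : List (Fin (n + 1))) : ContinuousOn (fun p : EE n × ℝ => Ew w (F k p.2) p.1) (OO n T) := by
  have h1 := (hF k).fam.cont w
  have h2 : ContinuousOn (fun p : EE n × ℝ => (p.2, p.1)) (OO n T) :=
    (continuous_snd.prodMk continuous_fst).continuousOn
  exact h1.comp h2 (fun p hp => ⟨hI ⟨hp.2.1, hp.2.2⟩, hp.1⟩)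

theorem Sm_ed {f : EE n → ℝ} (h : Sm f) (i : Fin (n + 1)) : Sm (ed i f) := by
  refine ⟨?_, ?_⟩
  · have h1 : ContDiffOn ℝ oo (fderiv ℝ f) {0}ᶜ :=
      h.cd.fderiv_of_isOpen isOpen_compl_singleton (by simp)
    have h2 : ContDiffOn ℝ oo (fun x : EE n => ‖x‖) {0}ᶜ := by
      intro x hx
      have hx' : x ≠ 0 := hx
      exact (contDiffAt_norm ℝ hx').contDiffWithinAt
    exact h2.mul (h1.clm_apply contDiffOn_const)
  · intro r x hr
    have h1 : (fun y => f (r • y)) = f := by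
      funext y
      exact h.hom r y hr
    have h2 : fderiv ℝ f x = r • fderiv ℝ f (r • x) := by
      conv_lhs => rw [← h1]
      exact fderiv_comp_smul (𝕜 := ℝ) (f := f) (x := x) r
    unfold ed pd
    rw [h2, norm_smul, Real.norm_of_nonneg hr.le]
    simp only [_root_.smul_apply, smul_eq_mul]
    ring

theorem Sm_Ew {f : EE n → ℝ} (h : Sm f) (w : List (Fin (n + 1))) : Sm (Ew w f) := by
  induction w with
  | nil => exact h
  | cons i w ih => exact Sm_ed ih i

theorem G_deriv (hI : Set.Ioo 0 T ⊆ I) (hF : ∀ k, SmFam1 I (F k) (F (k + 1))) (k : ℕ)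
    (w : List (Fin (n + 1))) {p : EE n × ℝ} (hp : p ∈ OO n T) :
    HasFDerivAt (fun p : EE n × ℝ => Ew w (F k p.2) p.1)
      (∑ i, Ew (i :: w) (F k p.2) p.1 • (Ac i p.1).comp (ContinuousLinearMap.fst ℝ (EE n) ℝ)
        + Ew w (F (k + 1) p.2) p.1 • ContinuousLinearMap.snd ℝ (EE n) ℝ) p := by
  have hO := (isOpen_OO n T).mem_nhds hp
  have hcA : ∀ i, ContinuousAt (fun p : EE n × ℝ => Ac i p.1) p := by
    intro i
    have h1 : ContinuousAt (Ac i) p.1 :=
      (Ac_cd i).continuousOn.continuousAt (isOpen_compl_singleton.mem_nhds hp.1)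
    exact ContinuousAt.comp (f := Prod.fst) h1 continuousAt_fst
  have key := hasStrictFDerivAt_uncurry_coprod (𝕜 := ℝ) (u := p)
    (f := fun (x : EE n) (t : ℝ) => Ew w (F k t) x)
    (f₁ := fun (x : EE n) (t : ℝ) => ∑ i, Ew (i :: w) (F k t) x • Ac i x)
    (f₂ := fun (x : EE n) (t : ℝ) => Ew w (F (k + 1) t) x • ContinuousLinearMap.id ℝ ℝ)
    ?_ ?_ ?_ ?_
  · have h1 := key.hasFDerivAt
    refine h1.congr_fderiv ?_
    ext v
    · simp [Function.HasUncurry.uncurry]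
    · simp [Function.HasUncurry.uncurry]
  · filter_upwards [hO] with v hv
    have hs : Sm (Ew w (F k v.2)) := Sm_Ew ((hF k).fam.sm _ (hI ⟨hv.2.1, hv.2.2⟩)) w
    have hd : DifferentiableAt ℝ (Ew w (F k v.2)) v.1 :=
      (hs.cd.contDiffAt (isOpen_compl_singleton.mem_nhds hv.1)).differentiableAt (by simp)
    have h2 := hd.hasFDerivAt
    rw [fderiv_eq hv.1] at h2
    exact h2
  · filter_upwards [hO] with v hv
    have h1 := (hF k).der w v.1 hv.1 v.2 (hI ⟨hv.2.1, hv.2.2⟩)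
    have h2 : I ∈ nhds v.2 := Filter.mem_of_superset (Ioo_mem_nhds hv.2.1 hv.2.2) hI
    have h3 := (h1.hasDerivAt h2).hasFDerivAt
    refine h3.congr_fderiv ?_
    ext
    simp [Function.HasUncurry.uncurry]
  · have : ContinuousAt (fun p : EE n × ℝ => ∑ i, Ew (i :: w) (F k p.2) p.1 • Ac i p.1) p := by
      refine tendsto_finsetSum _ fun i _ => ?_
      exact ((G_cont hI hF k (i :: w)).continuousAt hO).smul (hcA i)
    exact this
  · have : ContinuousAt (fun p : EE n × ℝ => Ew w (F (k + 1) p.2) p.1 •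
        ContinuousLinearMap.id ℝ ℝ) p :=
      ((G_cont hI hF (k + 1) w).continuousAt hO).smul continuousAt_const
    exact this

theorem G_cd (hI : Set.Ioo 0 T ⊆ I) (hF : ∀ k, SmFam1 I (F k) (F (k + 1))) (m : ℕ) :
    ∀ (k : ℕ) (w : List (Fin (n + 1))),
      ContDiffOn ℝ m (fun p : EE n × ℝ => Ew w (F k p.2) p.1) (OO n T) := by
  induction m with
  | zero =>
    intro k w
    exact contDiffOn_zero.mpr (G_cont hI hF k w)
  | succ m ih =>
    intro k w
    have h0 : ((m + 1 : ℕ) : WithTop ℕ∞) = (m : WithTop ℕ∞) + 1 := by push_cast; rfl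
    rw [h0, contDiffOn_succ_iff_fderiv_of_isOpen (isOpen_OO n T)]
    refine ⟨fun p hp => (G_deriv hI hF k w hp).differentiableAt.differentiableWithinAt,
      fun h => by simp at h, ?_⟩
    refine contDiffOn_clm_apply.mpr fun v => ?_
    have h1 : ContDiffOn ℝ m (fun p : EE n × ℝ => ∑ i, Ew (i :: w) (F k p.2) p.1 *
        Ac i p.1 v.1 + Ew w (F (k + 1) p.2) p.1 * v.2) (OO n T) := by
      refine ContDiffOn.add (ContDiffOn.sum fun i _ => ?_) ((ih (k + 1) w).mul contDiffOn_const)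
      refine (ih k (i :: w)).mul ?_
      have h2 : ContDiffOn ℝ oo (fun p : EE n × ℝ => Ac i p.1 v.1) (OO n T) :=
        ((Ac_cd i).comp contDiff_fst.contDiffOn (fun p hp => hp.1)).clm_apply contDiffOn_const
      have hle : ((m : ℕ) : WithTop ℕ∞) ≤ oo := by
        have h3 : ((m : ℕ∞) : WithTop ℕ∞) ≤ ((⊤ : ℕ∞) : WithTop ℕ∞) := by exact_mod_cast le_top
        exact h3
      exact h2.of_le hle
    refine h1.congr fun p hp => ?_
    rw [(G_deriv hI hF k w hp).fderiv]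
    simp

end

/-- Packet JSM. -/
theorem jsm : JsmStmt := by
  rintro n T I f hI ⟨F, rfl, hF⟩
  refine ⟨?_, fun t h0 h1 => ((hF 0).fam.sm t (hI ⟨h0, h1⟩)).hom⟩
  exact contDiffOn_infty.mpr fun m => G_cd hI hF m 0 []

end Pool.Agent.Helper74.RFn.JSM
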